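import Pool.Agent.GTR.Tr.Res

/-!
# GTR / Tr / Uniq: uniqueness near a nondegenerate zero, number of zeros

* `uniq`  : if `Jc m c0 v ≠ 0` there is `W ∈ 𝓝 v` such that for all `c` near `c0` there is at most one zero of `sys m c` in `W`;
* `ncard_eq` : if all zeros at `c0` are nondegenerate, and the zeros at `c` tend to zeros at `c0`, then the number of zeros is
  locally constant.
-/

set_option autoImplicit false

open Set Complex Filter Topology MvPolynomial Matrix

noncomputable section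

namespace Pool.GTR.Tr

variable {N : ℕ}

/-- two point difference quotients -/
theorem dq_ex (p : MvPolynomial (Fin N) ℂ) :
    ∃ q : Fin N → (Fin N → ℂ) × (Fin N → ℂ) → ℂ, (∀ j, Continuous (q j)) ∧
      (∀ z z', eval z p - eval z' p = ∑ j, q j (z, z') * (z j - z' j)) ∧
      ∀ j z, q j (z, z) = eval z (pderiv j p) := by
  induction p using MvPolynomial.induction_on with
  | C x => exact ⟨fun _ _ => 0, fun _ => continuous_const, by simp, by simp⟩
  | add p q hp hq =>
    obtain ⟨a, a1, a2, a3⟩ := hp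
    obtain ⟨b, b1, b2, b3⟩ := hq
    refine ⟨fun j x => a j x + b j x, fun j => (a1 j).add (b1 j), fun z z' => ?_,
      fun j z => ?_⟩
    · simp only [map_add, add_mul, Finset.sum_add_distrib, ← a2, ← b2]
      ring
    · show a j (z, z) + b j (z, z) = _
      rw [a3, b3, map_add, map_add]
  | mul_X p i hp =>
    obtain ⟨a, a1, a2, a3⟩ := hp
    refine ⟨fun j x => a j x * x.1 i + (if j = i then eval x.2 p else 0), fun j => ?_,
      fun z z' => ?_, fun j z => ?_⟩
    · have h1 : Continuous fun x : (Fin N → ℂ) × (Fin N → ℂ) => x.1 i := by fun_prop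
      refine ((a1 j).mul h1).add ?_
      by_cases h : j = i
      · simp only [if_pos h]
        exact (continuous_eval p).comp continuous_snd
      · simp only [if_neg h]
        exact continuous_const
    · simp only [map_mul, eval_X, add_mul, Finset.sum_add_distrib, ite_mul, zero_mul,
        Finset.sum_ite_eq', Finset.mem_univ, if_true]
      have h2 : ∑ j, a j (z, z') * z i * (z j - z' j) =
          (∑ j, a j (z, z') * (z j - z' j)) * z i := by
        rw [Finset.sum_mul]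
        exact Finset.sum_congr rfl fun j _ => by ring
      rw [h2, ← a2]
      ring
    · simp only []
      rw [a3, Derivation.leibniz, pderiv_X, map_add]
      by_cases h : j = i
      · subst h
        simp
        ring
      · rw [if_neg h, Pi.single_eq_of_ne (fun h' => h h'.symm)]
        simp
        ring

section main

variable {τ : Type*} [Fintype τ] {m : τ → MvPolynomial (Fin N) ℂ}

/-- UNIQUENESS near a nondegenerate zero -/
theorem uniq {c0 : Fin N → τ → ℂ} {v : Fin N → ℂ} (hJ : Jc m c0 v ≠ 0) :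
    ∃ W ∈ 𝓝 v, ∀ᶠ c in 𝓝 c0, ∀ z ∈ W, ∀ z' ∈ W, z ∈ Zs m c → z' ∈ Zs m c → z = z' := by
  choose q q1 q2 q3 using fun t => dq_ex (m t)
  set θ : (Fin N → τ → ℂ) × ((Fin N → ℂ) × (Fin N → ℂ)) → Matrix (Fin N) (Fin N) ℂ :=
    fun x => Matrix.of fun i j => ∑ t, x.1 i t * q t j x.2 with hθ
  have hc : Continuous fun x => (θ x).det := by
    refine Continuous.matrix_det ?_
    refine continuous_pi fun i => continuous_pi fun j => ?_
    refine continuous_finsetSum _ fun t _ => ?_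
    have h1 : Continuous fun x : (Fin N → τ → ℂ) × ((Fin N → ℂ) × (Fin N → ℂ)) =>
        x.1 i t := by fun_prop
    exact h1.mul ((q1 t j).comp continuous_snd)
  have h0 : (θ (c0, (v, v))).det ≠ 0 := by
    have h1 : (θ (c0, (v, v))).det = Jc m c0 v := by
      unfold Jc
      congr 1
      funext i j
      show ∑ t, c0 i t * q t j (v, v) = eval v (pderiv j (sys m c0 i))
      unfold sys
      simp only [map_sum, pderiv_C_mul, map_mul, eval_C, q3]
    rwa [h1]
  have h1 : ∀ᶠ x in 𝓝 (c0, (v, v)), (θ x).det ≠ 0 := hc.continuousAt.eventually_ne h0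
  rw [nhds_prod_eq, Filter.eventually_prod_iff] at h1
  obtain ⟨p1, hp1, p2, hp2, h12⟩ := h1
  rw [nhds_prod_eq, Filter.eventually_prod_iff] at hp2
  obtain ⟨p3, hp3, p4, hp4, h34⟩ := hp2
  refine ⟨{z | p3 z ∧ p4 z}, hp3.and hp4, ?_⟩
  filter_upwards [hp1] with c hc z hz z' hz' hZ hZ'
  have h2 : (θ (c, (z, z'))).det ≠ 0 := h12 hc (h34 hz.1 hz'.2)
  have h3 : (θ (c, (z, z'))).mulVec (z - z') = 0 := by
    funext i
    show ∑ j, (∑ t, c i t * q t j (z, z')) * (z j - z' j) = 0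
    have h4 : ∑ j, (∑ t, c i t * q t j (z, z')) * (z j - z' j) =
        ∑ t, c i t * (eval z (m t) - eval z' (m t)) := by
      simp only [q2, Finset.mul_sum, Finset.sum_mul]
      rw [Finset.sum_comm]
      exact Finset.sum_congr rfl fun t _ => Finset.sum_congr rfl fun j _ => by ring
    have h5 := hZ i
    have h6 := hZ' i
    rw [eval_sys] at h5 h6
    rw [h4]
    simp only [mul_sub, Finset.sum_sub_distrib]
    rw [h5, h6, sub_zero]
  have h4 := Matrix.eq_zero_of_mulVec_eq_zero h2 h3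
  exact sub_eq_zero.1 h4

/-- THE NUMBER OF ZEROS is locally constant -/
theorem ncard_eq {c0 : Fin N → τ → ℂ} (hfin : (Zs m c0).Finite)
    (hJ : ∀ v ∈ Zs m c0, Jc m c0 v ≠ 0) {l : Filter (Fin N → τ → ℂ)} (hl : l ≤ 𝓝 c0)
    (hf : ∀ᶠ c in l, (Zs m c).Finite)
    (hup : ∀ W : (Fin N → ℂ) → Set (Fin N → ℂ), (∀ v ∈ Zs m c0, W v ∈ 𝓝 v) →
      ∀ᶠ c in l, ∀ z ∈ Zs m c, ∃ v ∈ Zs m c0, z ∈ W v) :
    ∀ᶠ c in l, (Zs m c).ncard = (Zs m c0).ncard := by
  classical
  -- disjoint neighbourhoods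
  obtain ⟨D, hD, hDd⟩ := hfin.t2_separation
  have hu : ∀ v, ∃ W, v ∈ Zs m c0 → W ∈ 𝓝 v ∧ ∀ᶠ c in 𝓝 c0, ∀ z ∈ W, ∀ z' ∈ W,
      z ∈ Zs m c → z' ∈ Zs m c → z = z' := by
    intro v
    by_cases hv : v ∈ Zs m c0
    · obtain ⟨W, hW, h⟩ := uniq (hJ v hv)
      exact ⟨W, fun _ => ⟨hW, h⟩⟩
    · exact ⟨∅, fun h => absurd h hv⟩
  choose W hW using hu
  have hWD : ∀ v ∈ Zs m c0, W v ∩ D v ∈ 𝓝 v := fun v hv =>
    Filter.inter_mem (hW v hv).1 ((hD v).2.mem_nhds (hD v).1)
  have h1 : ∀ᶠ c in l, ∀ v ∈ hfin.toFinset, ∀ z ∈ W v, ∀ z' ∈ W v,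
      z ∈ Zs m c → z' ∈ Zs m c → z = z' := by
    rw [Filter.eventually_all_finset]
    intro v hv
    exact hl (hW v (hfin.mem_toFinset.1 hv)).2
  have h2 : ∀ᶠ c in l, ∀ v ∈ hfin.toFinset, (Zs m c).Finite →
      ∃ z ∈ W v ∩ D v, z ∈ Zs m c := by
    rw [Filter.eventually_all_finset]
    intro v hv
    have hv' := hfin.mem_toFinset.1 hv
    exact hl (pers hfin hv' (hWD v hv'))
  filter_upwards [h1, h2, hup _ hWD, hf] with c hc1 hc2 hc3 hc4
  have h5 : ∀ v, ∃ z, v ∈ Zs m c0 → z ∈ W v ∩ D v ∧ z ∈ Zs m c := by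
    intro v
    by_cases hv : v ∈ Zs m c0
    · obtain ⟨z, hz, hz'⟩ := hc2 v (hfin.mem_toFinset.2 hv) hc4
      exact ⟨z, fun _ => ⟨hz, hz'⟩⟩
    · exact ⟨0, fun h => absurd h hv⟩
  choose f hf using h5
  symm
  refine Set.ncard_congr (fun v _ => f v) (fun v hv => (hf v hv).2) ?_ ?_
  · intro v v' hv hv' h
    by_contra hne
    have h6 := Set.disjoint_left.1 (hDd hv hv' hne) (hf v hv).1.2
    exact h6 (h ▸ (hf v' hv').1.2)
  · intro z hz
    obtain ⟨v, hv, hzv⟩ := hc3 z hz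
    exact ⟨v, hv, hc1 v (hfin.mem_toFinset.2 hv) _ (hf v hv).1.1 _ hzv.1 (hf v hv).2 hz⟩

end main

end Pool.GTR.Tr
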