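import Pool.Agent.GTR.Tr.Torus

/-!
# GTR / Tr / Law: the transformation law of torus residues

`NZ v r G`: `G_j ≠ 0` on the part `|z_j - v_j| = r` of the closed polydisc.
If `G = M (z - a)` then the integral of `det M / ∏ G_j` is `(2 π i) ^ N` if `a` is in the open polydisc (`law_in`), `0` if
`|a_j - v_j| > r` for some `j` (`law_out`).
-/

set_option autoImplicit false

open MeasureTheory Set Complex Filter Topology MvPolynomial Matrix

noncomputable section

namespace Pool.GTR.Tr

variable {N : ℕ} {v a : Fin N → ℂ} {r : ℝ}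

/-- `G_j` has no zero on the part `|z_j - v_j| = r` of the polydisc -/
def NZ (v : Fin N → ℂ) (r : ℝ) (G : Fin N → MvPolynomial (Fin N) ℂ) : Prop :=
  ∀ j, ∀ z ∈ pd v r, ‖z j - v j‖ = r → eval z (G j) ≠ 0

theorem nz_tor {G : Fin N → MvPolynomial (Fin N) ℂ} (h : NZ v r G) (j : Fin N) :
    ∀ z ∈ tor v r, eval z (G j) ≠ 0 := fun z hz => h j z (tor_sub_pd v r hz) (hz j)

theorem nz_tori {G : Fin N → MvPolynomial (Fin N) ℂ} (h : NZ v r G) {j l : Fin N}
    (hjl : j ≠ l) : ∀ z ∈ tori v r l, eval z (G j) ≠ 0 :=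
  fun z hz => h j z (tori_sub_pd v r l hz) (hz.1 j hjl)

theorem nz_prod {G : Fin N → MvPolynomial (Fin N) ℂ} (h : NZ v r G) (s : Finset (Fin N)) :
    ∀ z ∈ tor v r, eval z (∏ j ∈ s, G j) ≠ 0 := by
  intro z hz
  rw [map_prod]
  exact Finset.prod_ne_zero_iff.2 fun j _ => nz_tor h j z hz

/-- a term divisible by `G l` has integral zero -/
theorem TI_elim (hr : 0 ≤ r) {G : Fin N → MvPolynomial (Fin N) ℂ} (hG : NZ v r G) (l : Fin N)
    (p : MvPolynomial (Fin N) ℂ) {e : MvPolynomial (Fin N) ℂ}
    (he : ∀ z ∈ tori v r l, eval z e ≠ 0) : TI v r (p * G l) (e * ∏ j, G j) = 0 := by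
  have h1 : e * ∏ j, G j = (e * ∏ j ∈ Finset.univ.erase l, G j) * G l := by
    rw [← Finset.prod_erase_mul Finset.univ G (Finset.mem_univ l), mul_assoc]
  rw [h1, TI_cancel hr _ _ (nz_tor hG l)]
  refine TI_zero hr l p fun z hz => ?_
  rw [map_mul, map_prod]
  refine mul_ne_zero (he z hz) (Finset.prod_ne_zero_iff.2 fun j hj => ?_)
  exact nz_tori hG (Finset.ne_of_mem_erase hj) z hz

/-- `w_i = z_i - a_i` -/
abbrev wv (a : Fin N → ℂ) (i : Fin N) : MvPolynomial (Fin N) ℂ := X i - C (a i)

theorem eval_wv (a z : Fin N → ℂ) (i : Fin N) : eval z (wv a i) = z i - a i := by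
  simp [wv]

theorem cramer {G : Fin N → MvPolynomial (Fin N) ℂ}
    {M : Matrix (Fin N) (Fin N) (MvPolynomial (Fin N) ℂ)}
    (hM : ∀ i, G i = ∑ j, M i j * wv a j) (i : Fin N) :
    M.det * wv a i = ∑ l, M.adjugate i l * G l := by
  have h1 : G = M.mulVec (wv a) := by
    funext i
    rw [hM i]
    rfl
  have h2 : M.adjugate.mulVec G = M.det • wv a := by
    rw [h1, Matrix.mulVec_mulVec, Matrix.adjugate_mul, Matrix.smul_mulVec, Matrix.one_mulVec]
  have h3 := congrFun h2 i
  rw [Pi.smul_apply, smul_eq_mul] at h3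
  rw [← h3]
  rfl

/-- one step of the transformation law -/
theorem law_step (hr : 0 ≤ r) {G : Fin N → MvPolynomial (Fin N) ℂ}
    {M : Matrix (Fin N) (Fin N) (MvPolynomial (Fin N) ℂ)}
    (hM : ∀ i, G i = ∑ j, M i j * wv a j) (hG : NZ v r G) (i : Fin N)
    (hi : ‖a i - v i‖ < r) :
    TI v r M.det (∏ j, G j) =
      TI v r (M.updateRow i (Pi.single i 1)).det (∏ j, Function.update G i (wv a i) j) := by
  have hw : ∀ z : Fin N → ℂ, ‖z i - v i‖ = r → eval z (wv a i) ≠ 0 := by
    intro z hz h0
    rw [eval_wv, sub_eq_zero] at h0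
    rw [h0] at hz
    linarith
  have h1 : TI v r M.det (∏ j, G j) = TI v r (M.det * wv a i) (wv a i * ∏ j, G j) := by
    rw [mul_comm (wv a i), TI_cancel hr _ _ fun z hz => hw z (hz i)]
  have hq : ∀ z ∈ tor v r, eval z (wv a i * ∏ j, G j) ≠ 0 := by
    intro z hz
    rw [map_mul]
    exact mul_ne_zero (hw z (hz i)) (nz_prod hG _ z hz)
  rw [h1, cramer hM i, TI_sum hr _ _ hq, Finset.sum_eq_single i]
  · rw [← Matrix.adjugate_apply]
    have h2 : wv a i * ∏ j, G j = (∏ j, Function.update G i (wv a i) j) * G i := by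
      rw [Finset.prod_update_of_mem (Finset.mem_univ i),
        ← Finset.prod_erase_mul Finset.univ G (Finset.mem_univ i), mul_assoc]
      congr 2
      refine Finset.prod_congr ?_ fun _ _ => rfl
      ext j
      simp
    rw [h2, TI_cancel hr _ _ (nz_tor hG i)]
  · intro l _ hl
    exact TI_elim hr hG l _ fun z hz => hw z (hz.1 i fun h => hl h.symm)
  · intro h
    exact absurd (Finset.mem_univ i) h

/-- TRANSFORMATION LAW, `a` in the open polydisc -/
theorem law_in (hr : 0 ≤ r) {G : Fin N → MvPolynomial (Fin N) ℂ}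
    {M : Matrix (Fin N) (Fin N) (MvPolynomial (Fin N) ℂ)}
    (hM : ∀ i, G i = ∑ j, M i j * wv a j) (hG : NZ v r G) (ha : ∀ i, ‖a i - v i‖ < r) :
    TI v r M.det (∏ j, G j) = (2 * Real.pi * Complex.I) ^ N := by
  classical
  have key : ∀ s : Finset (Fin N), TI v r M.det (∏ j, G j) =
      TI v r (Matrix.det fun i => if i ∈ s then Pi.single i 1 else M i)
        (∏ j, if j ∈ s then wv a j else G j) := by
    intro s
    induction s using Finset.induction_on with
    | empty => simp
    | insert i s hi ih =>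
      rw [ih]
      set M' : Matrix (Fin N) (Fin N) (MvPolynomial (Fin N) ℂ) :=
        fun i => if i ∈ s then Pi.single i 1 else M i with hM'
      set G' : Fin N → MvPolynomial (Fin N) ℂ := fun j => if j ∈ s then wv a j else G j with hG'
      have h1 : ∀ i, G' i = ∑ j, M' i j * wv a j := by
        intro i
        by_cases h : i ∈ s
        · simp only [hG', hM', if_pos h]
          rw [Finset.sum_eq_single i]
          · simp
          · intro j _ hj
            rw [Pi.single_eq_of_ne hj, zero_mul]
          · intro h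
            exact absurd (Finset.mem_univ i) h
        · simp only [hG', hM', if_neg h]
          exact hM i
      have h2 : NZ v r G' := by
        intro j z hz hj
        by_cases h : j ∈ s
        · simp only [hG', if_pos h]
          intro h0
          rw [eval_wv, sub_eq_zero] at h0
          rw [h0] at hj
          linarith [ha j]
        · simp only [hG', if_neg h]
          exact hG j z hz hj
      rw [law_step hr h1 h2 i (ha i)]
      congr 1
      · congr 1
        funext j
        by_cases hj : j = i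
        · subst hj
          rw [Matrix.updateRow_self, if_pos (Finset.mem_insert_self _ _)]
        · rw [Matrix.updateRow_ne hj]
          simp only [hM', Finset.mem_insert, hj, false_or]
      · refine Finset.prod_congr rfl fun j _ => ?_
        by_cases hj : j = i
        · subst hj
          rw [Function.update_self, if_pos (Finset.mem_insert_self _ _)]
        · rw [Function.update_of_ne hj]
          simp only [hG', Finset.mem_insert, hj, false_or]
  rw [key Finset.univ, ← TI_one hr ha]
  congr 1
  · have : (fun i => if i ∈ (Finset.univ : Finset (Fin N)) then Pi.single i 1 else M i) =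
        (1 : Matrix (Fin N) (Fin N) (MvPolynomial (Fin N) ℂ)) := by
      funext i j
      rw [if_pos (Finset.mem_univ i), Matrix.one_apply]
      by_cases h : i = j
      · subst h
        simp
      · rw [if_neg h, Pi.single_eq_of_ne fun h' => h h'.symm]
    rw [this, Matrix.det_one]
  · exact Finset.prod_congr rfl fun j _ => if_pos (Finset.mem_univ j)

/-- TRANSFORMATION LAW, `a` outside the closed polydisc -/
theorem law_out (hr : 0 ≤ r) {G : Fin N → MvPolynomial (Fin N) ℂ}
    {M : Matrix (Fin N) (Fin N) (MvPolynomial (Fin N) ℂ)}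
    (hM : ∀ i, G i = ∑ j, M i j * wv a j) (hG : NZ v r G) {i : Fin N}
    (hi : r < ‖a i - v i‖) : TI v r M.det (∏ j, G j) = 0 := by
  have hw : ∀ z : Fin N → ℂ, ‖z i - v i‖ ≤ r → eval z (wv a i) ≠ 0 := by
    intro z hz h0
    rw [eval_wv, sub_eq_zero] at h0
    rw [h0] at hz
    linarith
  have h1 : TI v r M.det (∏ j, G j) = TI v r (M.det * wv a i) (wv a i * ∏ j, G j) := by
    rw [mul_comm (wv a i), TI_cancel hr _ _ fun z hz => hw z (hz i).le]
  have hq : ∀ z ∈ tor v r, eval z (wv a i * ∏ j, G j) ≠ 0 := by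
    intro z hz
    rw [map_mul]
    exact mul_ne_zero (hw z (hz i).le) (nz_prod hG _ z hz)
  rw [h1, cramer hM i, TI_sum hr _ _ hq]
  refine Finset.sum_eq_zero fun l _ => ?_
  exact TI_elim hr hG l _ fun z hz => hw z (tori_sub_pd v r l hz i)

end Pool.GTR.Tr
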