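import Pool.Agent.GTR.Tr.Sys

/-!
# GTR / Tr / Res: persistence of isolated zeros and bounded residues

`m : τ → MvPolynomial (Fin N) ℂ`, parameters `c : Fin N → τ → ℂ`, `Zs m c0` finite, `v ∈ Zs m c0`, `W ∈ 𝓝 v`.
* `pers`   : for all `c` near `c0` with `Zs m c` finite there is a zero of `sys m c` in `W`;
* `bd`     : the sum of `1 / J` over the zeros in some neighbourhood `U ⊆ W` of `v` is bounded for all `c` near `c0` with finitely
  many zeros, all nondegenerate;
* `nondeg` : if along a filter all zeros are nondegenerate and those in `W` have real Jacobians of one sign, then `J(v) ≠ 0`.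
-/

set_option autoImplicit false

open MeasureTheory Set Complex Filter Topology MvPolynomial Matrix

noncomputable section

namespace Pool.GTR.Tr

variable {N : ℕ}

theorem isCompact_pd (v : Fin N → ℂ) (r : ℝ) : IsCompact (pd v r) := by
  have : pd v r = Set.pi Set.univ fun i => Metric.closedBall (v i) r := by
    ext z
    simp [pd, dist_eq_norm]
  rw [this]
  exact isCompact_univ_pi fun i => isCompact_closedBall _ _

theorem isClosed_sph (v : Fin N → ℂ) (r : ℝ) (j : Fin N) :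
    IsClosed {z : Fin N → ℂ | ‖z j - v j‖ = r} :=
  isClosed_eq ((continuous_apply j).sub continuous_const).norm continuous_const

theorem isCompact_tor (v : Fin N → ℂ) (r : ℝ) : IsCompact (tor v r) := by
  have h : tor v r = pd v r ∩ ⋂ j, {z : Fin N → ℂ | ‖z j - v j‖ = r} := by
    ext z
    simp only [tor, pd, Set.mem_ofPred_eq, Set.mem_inter_iff, Set.mem_iInter]
    exact ⟨fun h => ⟨fun i => (h i).le, h⟩, fun h => h.2⟩
  rw [h]
  exact (isCompact_pd v r).inter_right (isClosed_iInter fun j => isClosed_sph v r j)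

theorem pd_nhds (v : Fin N → ℂ) {r : ℝ} (hr : 0 < r) : pd v r ∈ 𝓝 v := by
  have h : Metric.ball v r ⊆ pd v r := by
    intro z hz i
    rw [Metric.mem_ball, dist_eq_norm] at hz
    exact (norm_le_pi_norm (z - v) i).trans hz.le
  exact Filter.mem_of_superset (Metric.ball_mem_nhds v hr) h

/-- a small radius -/
theorem exists_r {v : Fin N → ℂ} {W : Set (Fin N → ℂ)} (hW : W ∈ 𝓝 v)
    (Z : Finset (Fin N → ℂ)) :
    ∃ r : ℝ, 0 < r ∧ pd v r ⊆ W ∧ ∀ a ∈ Z, ∀ i, a i ≠ v i → r < ‖a i - v i‖ := by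
  obtain ⟨ε, hε, hεW⟩ := Metric.mem_nhds_iff.1 hW
  have h1 : ∀ᶠ r in 𝓝[>] (0 : ℝ), ∀ a ∈ Z, ∀ i, a i ≠ v i → r < ‖a i - v i‖ := by
    rw [Filter.eventually_all_finset]
    intro a _
    rw [Filter.eventually_all]
    intro i
    by_cases h : a i = v i
    · exact Filter.Eventually.of_forall fun r h' => absurd h h'
    · have h2 : 0 < ‖a i - v i‖ := norm_pos_iff.2 (sub_ne_zero.2 h)
      filter_upwards [Ioo_mem_nhdsGT h2] with r hr _
      exact hr.2
  obtain ⟨r, hr1, hr2⟩ := (h1.and (Ioo_mem_nhdsGT hε)).exists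
  refine ⟨r, hr2.1, fun z hz => hεW ?_, hr1⟩
  rw [Metric.mem_ball, dist_eq_norm]
  refine lt_of_le_of_lt ?_ hr2.2
  exact (pi_norm_le_iff_of_nonneg hr2.1.le).2 hz

section cont

variable {A : Type*} [TopologicalSpace A]

/-- continuity of `TI` in a parameter -/
theorem TI_cont {v : Fin N → ℂ} {r : ℝ} (hr : 0 ≤ r) {p q : A → MvPolynomial (Fin N) ℂ}
    (hp : Continuous fun x : A × (Fin N → ℂ) => eval x.2 (p x.1))
    (hq : Continuous fun x : A × (Fin N → ℂ) => eval x.2 (q x.1)) {c0 : A}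
    (h0 : ∀ z ∈ tor v r, eval z (q c0) ≠ 0) :
    Tendsto (fun c => TI v r (p c) (q c)) (𝓝 c0) (𝓝 (TI v r (p c0) (q c0))) := by
  rw [Metric.tendsto_nhds]
  intro ε hε
  set K : ℝ := (2 * Real.pi) ^ N * ∏ _i : Fin N, |r| with hK
  have hK0 : 0 ≤ K := by positivity
  have h1 : ∀ᶠ c in 𝓝 c0, ∀ z ∈ tor v r, eval z (q c) ≠ 0 := by
    refine (isCompact_tor v r).eventually_forall_of_forall_eventually fun z hz => ?_
    have := hq.continuousAt (x := (c0, z))
    exact this.eventually_ne (h0 z hz)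
  have h2 : ∀ᶠ c in 𝓝 c0, ∀ z ∈ tor v r,
      ‖eval z (p c) / eval z (q c) - eval z (p c0) / eval z (q c0)‖ < ε / (K + 1) := by
    refine (isCompact_tor v r).eventually_forall_of_forall_eventually fun z hz => ?_
    have e1 : ContinuousAt (fun x : A × (Fin N → ℂ) => eval x.2 (p x.1) / eval x.2 (q x.1))
        (c0, z) := hp.continuousAt.div hq.continuousAt (h0 z hz)
    have e2 : ContinuousAt (fun x : A × (Fin N → ℂ) => eval x.2 (p c0) / eval x.2 (q c0))
        (c0, z) :=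
      (((continuous_eval (p c0)).comp continuous_snd).continuousAt).div
        (((continuous_eval (q c0)).comp continuous_snd).continuousAt) (h0 z hz)
    have e3 := (e1.sub e2).norm
    have e4 : (‖eval z (p c0) / eval z (q c0) - eval z (p c0) / eval z (q c0)‖) <
        ε / (K + 1) := by
      rw [sub_self, norm_zero]
      positivity
    exact e3.eventually_lt continuousAt_const e4
  filter_upwards [h1, h2] with c hc1 hc2
  rw [dist_eq_norm]
  have h3 : TI v r (p c) (q c) - TI v r (p c0) (q c0) =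
      ∯ z in T(v, fun _ => r), (eval z (p c) / eval z (q c) - eval z (p c0) / eval z (q c0)) :=
    (torusIntegral_sub (integrable_div hr _ hc1) (integrable_div hr _ h0)).symm
  rw [h3]
  refine lt_of_le_of_lt (norm_torusIntegral_le_of_norm_le_const (C := ε / (K + 1))
    fun θ => (hc2 _ (torusMap_mem hr θ)).le) ?_
  have h4 : K * (ε / (K + 1)) < ε := by
    rw [mul_div_assoc', div_lt_iff₀ (by positivity)]
    nlinarith
  exact h4

end cont

section main

variable {τ : Type*} [Fintype τ] {m : τ → MvPolynomial (Fin N) ℂ}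

theorem sys_cont (i : Fin N) :
    Continuous fun x : (Fin N → τ → ℂ) × (Fin N → ℂ) => eval x.2 (sys m x.1 i) := by
  simp only [eval_sys]
  refine continuous_finsetSum _ fun t _ => ?_
  have h1 : Continuous fun x : (Fin N → τ → ℂ) × (Fin N → ℂ) => x.1 i t := by fun_prop
  exact h1.mul ((continuous_eval (m t)).comp continuous_snd)

theorem Th_cont (v : Fin N → ℂ) :
    Continuous fun x : (Fin N → τ → ℂ) × (Fin N → ℂ) => eval x.2 (Th m x.1 v).det := by
  simp only [RingHom.map_det]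
  refine Continuous.matrix_det ?_
  refine continuous_pi fun i => continuous_pi fun j => ?_
  show Continuous fun x : (Fin N → τ → ℂ) × (Fin N → ℂ) => eval x.2 (Th m x.1 v i j)
  unfold Th
  simp only [map_sum, map_mul, eval_C]
  refine continuous_finsetSum _ fun t _ => ?_
  have h1 : Continuous fun x : (Fin N → τ → ℂ) × (Fin N → ℂ) => x.1 i t := by fun_prop
  exact h1.mul ((continuous_eval _).comp continuous_snd)

theorem Jc_cont : Continuous fun x : (Fin N → τ → ℂ) × (Fin N → ℂ) => Jc m x.1 x.2 := by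
  unfold Jc
  refine Continuous.matrix_det ?_
  refine continuous_pi fun i => continuous_pi fun j => ?_
  show Continuous fun x : (Fin N → τ → ℂ) × (Fin N → ℂ) => eval x.2 (pderiv j (sys m x.1 i))
  unfold sys
  simp only [map_sum, pderiv_C_mul, map_mul, eval_C]
  refine continuous_finsetSum _ fun t _ => ?_
  have h1 : Continuous fun x : (Fin N → τ → ℂ) × (Fin N → ℂ) => x.1 i t := by fun_prop
  exact h1.mul ((continuous_eval _).comp continuous_snd)

/-- the transformed system -/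
def Gs (m : τ → MvPolynomial (Fin N) ℂ) (b : Matrix (Fin N) (Fin N) (MvPolynomial (Fin N) ℂ))
    (c : Fin N → τ → ℂ) (i : Fin N) : MvPolynomial (Fin N) ℂ := ∑ j, b i j * sys m c j

theorem Gs_cont (b : Matrix (Fin N) (Fin N) (MvPolynomial (Fin N) ℂ)) (i : Fin N) :
    Continuous fun x : (Fin N → τ → ℂ) × (Fin N → ℂ) => eval x.2 (Gs m b x.1 i) := by
  unfold Gs
  simp only [map_sum, map_mul]
  exact continuous_finsetSum _ fun j _ =>
    ((continuous_eval _).comp continuous_snd).mul (sys_cont j)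

/-- a polydisc and a matrix `b` such that `b * sys` satisfies `NZ` for all parameters near `c0` -/
theorem setup {c0 : Fin N → τ → ℂ} (hfin : (Zs m c0).Finite) {v : Fin N → ℂ}
    {W : Set (Fin N → ℂ)} (hW : W ∈ 𝓝 v) :
    ∃ r : ℝ, 0 < r ∧ pd v r ⊆ W ∧ ∃ b : Matrix (Fin N) (Fin N) (MvPolynomial (Fin N) ℂ),
      ∀ᶠ c in 𝓝 c0, NZ v r (Gs m b c) := by
  classical
  obtain ⟨r, hr, hrW, hrZ⟩ := exists_r hW hfin.toFinset
  have h1 : ∀ i : Fin N, ∃ (q : ℕ) (e : Fin N → MvPolynomial (Fin N) ℂ),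
      (∏ a ∈ hfin.toFinset, wv a i) ^ q = ∑ j, e j * sys m c0 j := by
    intro i
    refine null fun z hz => ?_
    rw [map_prod]
    exact Finset.prod_eq_zero (hfin.mem_toFinset.2 hz) (by rw [eval_wv, sub_self])
  choose q e he using h1
  refine ⟨r, hr, hrW, fun i j => e i j, ?_⟩
  have h2 : ∀ i z, ‖z i - v i‖ = r → eval z (Gs m (fun i j => e i j) c0 i) ≠ 0 := by
    intro i z hz
    unfold Gs
    rw [← he i, map_pow, map_prod]
    refine pow_ne_zero _ (Finset.prod_ne_zero_iff.2 fun a ha h0 => ?_)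
    rw [eval_wv, sub_eq_zero] at h0
    by_cases h3 : a i = v i
    · rw [h0, h3, sub_self, norm_zero] at hz
      exact hr.ne hz
    · have := hrZ a ha i h3
      rw [h0] at hz
      linarith
  unfold NZ
  rw [Filter.eventually_all]
  intro j
  have hK : IsCompact (pd v r ∩ {z : Fin N → ℂ | ‖z j - v j‖ = r}) :=
    (isCompact_pd v r).inter_right (isClosed_sph v r j)
  have h3 := hK.eventually_forall_of_forall_eventually (x₀ := c0)
    (P := fun c z => eval z (Gs m (fun i j => e i j) c j) ≠ 0) fun z hz => by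
      have := (Gs_cont (m := m) (fun i j => e i j) j).continuousAt (x := (c0, z))
      exact this.eventually_ne (h2 j z hz.2)
  filter_upwards [h3] with c hc z hz hz'
  exact hc z ⟨hz, hz'⟩

/-- the system in terms of `b Th` -/
theorem Gs_eq {b : Matrix (Fin N) (Fin N) (MvPolynomial (Fin N) ℂ)} {c : Fin N → τ → ℂ}
    {a : Fin N → ℂ} (ha : a ∈ Zs m c) (i : Fin N) :
    Gs m b c i = ∑ j, (b * Th m c a) i j * wv a j := by
  unfold Gs
  simp only [Matrix.mul_apply, Finset.sum_mul]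
  rw [Finset.sum_comm]
  refine Finset.sum_congr rfl fun l _ => ?_
  rw [sys_zero ha l, Finset.mul_sum]
  exact Finset.sum_congr rfl fun j _ => by ring

/-- no zero in the polydisc: the integrals vanish -/
theorem TI_nozero {v : Fin N → ℂ} {r : ℝ} (hr : 0 ≤ r)
    {b : Matrix (Fin N) (Fin N) (MvPolynomial (Fin N) ℂ)} {c : Fin N → τ → ℂ}
    (hN : NZ v r (Gs m b c)) (hf : (Zs m c).Finite) (h0 : ∀ a ∈ Zs m c, a ∉ pd v r)
    (H : MvPolynomial (Fin N) ℂ) : TI v r (b.det * H) (∏ j, Gs m b c j) = 0 := by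
  classical
  have h1 : ∀ a : Fin N → ℂ, ∃ i : Option (Fin N), a ∈ Zs m c →
      ∃ j, i = some j ∧ r < ‖a j - v j‖ := by
    intro a
    by_cases ha : a ∈ Zs m c
    · have := h0 a ha
      unfold pd at this
      simp only [Set.mem_ofPred_eq, not_forall, not_le] at this
      obtain ⟨j, hj⟩ := this
      exact ⟨some j, fun _ => ⟨j, rfl, hj⟩⟩
    · exact ⟨none, fun h => absurd h ha⟩
  choose jj hjj using h1
  set g0 : MvPolynomial (Fin N) ℂ := ∏ a ∈ hf.toFinset, (jj a).elim 1 fun j => wv a j with hg0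
  obtain ⟨q, e, he⟩ := null (G := sys m c) (g := g0) fun z hz => by
    rw [hg0, map_prod]
    obtain ⟨j, hj, -⟩ := hjj z hz
    refine Finset.prod_eq_zero (hf.mem_toFinset.2 hz) ?_
    rw [hj]
    simp only [Option.elim]
    rw [eval_wv, sub_self]
  refine TI_ideal hr (F := sys m c) (G := Gs m b c) (b := b) (fun i => rfl) hN (g := g0 ^ q) ?_
    he H
  intro z hz
  rw [map_pow, hg0, map_prod]
  refine pow_ne_zero _ (Finset.prod_ne_zero_iff.2 fun a ha h => ?_)
  obtain ⟨j, hj, hja⟩ := hjj a (hf.mem_toFinset.1 ha)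
  rw [hj] at h
  simp only [Option.elim] at h
  rw [eval_wv, sub_eq_zero] at h
  have := hz j
  rw [h] at this
  linarith

/-- PERSISTENCE of isolated zeros -/
theorem pers {c0 : Fin N → τ → ℂ} (hfin : (Zs m c0).Finite) {v : Fin N → ℂ}
    (hv : v ∈ Zs m c0) {W : Set (Fin N → ℂ)} (hW : W ∈ 𝓝 v) :
    ∀ᶠ c in 𝓝 c0, (Zs m c).Finite → ∃ z ∈ W, z ∈ Zs m c := by
  obtain ⟨r, hr, hrW, b, hb⟩ := setup hfin hW
  have hN0 : NZ v r (Gs m b c0) := hb.self_of_nhds
  have h1 : TI v r (b.det * (Th m c0 v).det) (∏ j, Gs m b c0 j) =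
      (2 * Real.pi * Complex.I) ^ N := by
    rw [← Matrix.det_mul]
    exact law_in hr.le (Gs_eq hv) hN0 fun i => by rw [sub_self, norm_zero]; exact hr
  have h2 : Tendsto (fun c => TI v r (b.det * (Th m c v).det) (∏ j, Gs m b c j)) (𝓝 c0)
      (𝓝 ((2 * Real.pi * Complex.I) ^ N)) := by
    rw [← h1]
    refine TI_cont hr.le ?_ ?_ ?_
    · simp only [map_mul]
      exact ((continuous_eval _).comp continuous_snd).mul (Th_cont v)
    · simp only [map_prod]
      exact continuous_finsetProd _ fun j _ => Gs_cont b j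
    · exact nz_prod hN0 _
  have h3 : ((2 * Real.pi * Complex.I) ^ N : ℂ) ≠ 0 := pow_ne_zero _ Complex.two_pi_I_ne_zero
  filter_upwards [hb, h2.eventually_ne h3] with c hc hc2 hf
  by_contra hno
  push Not at hno
  exact hc2 (TI_nozero hr.le hc hf (fun a ha hap => hno a (hrW hap) ha) _)

/-- BOUNDED RESIDUES -/
theorem bd {c0 : Fin N → τ → ℂ} (hfin : (Zs m c0).Finite) {v : Fin N → ℂ}
    {W : Set (Fin N → ℂ)} (hW : W ∈ 𝓝 v) :
    ∃ U ∈ 𝓝 v, U ⊆ W ∧ ∃ K : ℝ, ∀ᶠ c in 𝓝 c0, ∀ hf : (Zs m c).Finite,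
      (∀ a ∈ Zs m c, Jc m c a ≠ 0) →
      ∀ S : Finset (Fin N → ℂ), (∀ a, a ∈ S ↔ a ∈ Zs m c ∧ a ∈ U) →
        ‖∑ a ∈ S, (Jc m c a)⁻¹‖ ≤ K := by
  classical
  obtain ⟨r, hr, hrW, b, hb⟩ := setup hfin hW
  have hN0 : NZ v r (Gs m b c0) := hb.self_of_nhds
  have h2 : Tendsto (fun c => TI v r b.det (∏ j, Gs m b c j)) (𝓝 c0)
      (𝓝 (TI v r b.det (∏ j, Gs m b c0 j))) := by
    refine TI_cont hr.le ((continuous_eval _).comp continuous_snd) ?_ (nz_prod hN0 _)
    simp only [map_prod]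
    exact continuous_finsetProd _ fun j _ => Gs_cont b j
  set L : ℝ := ‖TI v r b.det (∏ j, Gs m b c0 j)‖ + 1 with hL
  have h3 : ∀ᶠ c in 𝓝 c0, ‖TI v r b.det (∏ j, Gs m b c j)‖ < L :=
    h2.norm.eventually_lt_const (by rw [hL]; linarith)
  refine ⟨pd v r, pd_nhds v hr, hrW, L, ?_⟩
  filter_upwards [hb, h3] with c hc hc3 hf hJ S hS
  obtain ⟨e, he⟩ := one_eq hf hJ
  have hq : ∀ z ∈ tor v r, eval z (∏ j, Gs m b c j) ≠ 0 := nz_prod hc _
  have h4 : b.det = ∑ a ∈ hf.toFinset, C (Jc m c a)⁻¹ * (b * Th m c a).det +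
      b.det * ∑ i, e i * sys m c i := by
    conv_lhs => rw [← mul_one b.det, he]
    rw [mul_add, Finset.mul_sum]
    congr 1
    refine Finset.sum_congr rfl fun a _ => ?_
    rw [Matrix.det_mul]
    ring
  have h5 : TI v r (b.det * ∑ i, e i * sys m c i) (∏ j, Gs m b c j) = 0 := by
    have h6 : ∀ j, b.det * sys m c j = ∑ i, b.adjugate j i * Gs m b c i := by
      intro j
      have h3 : Gs m b c = b.mulVec (sys m c) := by
        funext i
        rfl
      have h4 : b.adjugate.mulVec (Gs m b c) = b.det • sys m c := by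
        rw [h3, Matrix.mulVec_mulVec, Matrix.adjugate_mul, Matrix.smul_mulVec,
          Matrix.one_mulVec]
      have h5 := congrFun h4 j
      rw [Pi.smul_apply, smul_eq_mul] at h5
      rw [← h5]
      rfl
    have h7 : b.det * ∑ i, e i * sys m c i =
        ∑ i, (∑ j, e j * b.adjugate j i) * Gs m b c i := by
      have h4 : b.det * ∑ i, e i * sys m c i = ∑ j, e j * (b.det * sys m c j) := by
        rw [Finset.mul_sum]
        exact Finset.sum_congr rfl fun j _ => by ring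
      rw [h4]
      simp only [h6, Finset.mul_sum, Finset.sum_mul]
      rw [Finset.sum_comm]
      exact Finset.sum_congr rfl fun i _ => Finset.sum_congr rfl fun j _ => by ring
    rw [h7, TI_sum hr.le _ _ hq]
    refine Finset.sum_eq_zero fun l _ => ?_
    have h8 := TI_elim hr.le hc l (∑ j, e j * b.adjugate j l) (e := 1)
      fun z _ => by rw [map_one]; exact one_ne_zero
    rwa [one_mul] at h8
  have h6 : ∀ a ∈ hf.toFinset, TI v r (C (Jc m c a)⁻¹ * (b * Th m c a).det)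
      (∏ j, Gs m b c j) =
      if a ∈ S then (Jc m c a)⁻¹ * (2 * Real.pi * Complex.I) ^ N else 0 := by
    intro a ha
    have haZ : a ∈ Zs m c := hf.mem_toFinset.1 ha
    rw [TI_C_mul hr.le]
    by_cases haS : a ∈ S
    · rw [if_pos haS]
      congr 1
      refine law_in hr.le (Gs_eq haZ) hc fun i => lt_of_le_of_ne (((hS a).1 haS).2 i) ?_
      intro h
      refine hc i a ((hS a).1 haS).2 h ?_
      unfold Gs
      rw [map_sum]
      exact Finset.sum_eq_zero fun j _ => by rw [map_mul, haZ j, mul_zero]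
    · rw [if_neg haS]
      have h7 : a ∉ pd v r := fun h => haS ((hS a).2 ⟨haZ, h⟩)
      unfold pd at h7
      simp only [Set.mem_ofPred_eq, not_forall, not_le] at h7
      obtain ⟨j, hj⟩ := h7
      rw [law_out hr.le (Gs_eq haZ) hc hj, mul_zero]
  have h7 : TI v r b.det (∏ j, Gs m b c j) =
      (∑ a ∈ S, (Jc m c a)⁻¹) * (2 * Real.pi * Complex.I) ^ N := by
    conv_lhs => rw [h4]
    rw [TI_add hr.le _ _ hq, h5, add_zero, TI_sum hr.le _ _ hq, Finset.sum_congr rfl h6,
      ← Finset.sum_filter, Finset.sum_mul]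
    refine Finset.sum_congr ?_ fun _ _ => rfl
    ext a
    rw [Finset.mem_filter, hf.mem_toFinset]
    exact ⟨fun h => h.2, fun h => ⟨((hS a).1 h).1, h⟩⟩
  have h8 : ‖∑ a ∈ S, (Jc m c a)⁻¹‖ * (2 * Real.pi) ^ N < L := by
    rw [h7, norm_mul, norm_pow] at hc3
    simpa [abs_of_pos Real.pi_pos] using hc3
  have h9 : (1 : ℝ) ≤ (2 * Real.pi) ^ N := one_le_pow₀ (by linarith [Real.pi_gt_three])
  have h10 : 0 ≤ ‖∑ a ∈ S, (Jc m c a)⁻¹‖ := norm_nonneg _
  nlinarith

/-- NONDEGENERACY of the limit -/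
theorem nondeg {c0 : Fin N → τ → ℂ} (hfin : (Zs m c0).Finite) {v : Fin N → ℂ}
    (hv : v ∈ Zs m c0) {W : Set (Fin N → ℂ)} (hW : W ∈ 𝓝 v) {ι : Type*} {l : Filter ι}
    [l.NeBot] {c : ι → Fin N → τ → ℂ} (hc : Tendsto c l (𝓝 c0))
    (hf : ∀ᶠ ν in l, (Zs m (c ν)).Finite)
    (hJ : ∀ᶠ ν in l, ∀ a ∈ Zs m (c ν), Jc m (c ν) a ≠ 0)
    (hs : ∀ᶠ ν in l, ∀ a ∈ Zs m (c ν), a ∈ W → ∀ a' ∈ Zs m (c ν), a' ∈ W →
      (Jc m (c ν) a).im = 0 ∧ 0 < (Jc m (c ν) a).re * (Jc m (c ν) a').re) :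
    Jc m c0 v ≠ 0 := by
  classical
  intro h0
  obtain ⟨U, hU, hUW, K, hK⟩ := bd hfin hW
  -- a small neighbourhood where the Jacobian is small
  have h1 : ∀ᶠ x in 𝓝 (c0, v), ‖Jc m x.1 x.2‖ < 1 / (|K| + 1) := by
    have h2 := (Jc_cont (m := m)).continuousAt (x := (c0, v))
    have h3 : ‖Jc m c0 v‖ < 1 / (|K| + 1) := by
      rw [h0, norm_zero]
      positivity
    exact h2.norm.eventually_lt_const h3
  rw [nhds_prod_eq, Filter.eventually_prod_iff] at h1
  obtain ⟨p1, hp1, p2, hp2, h12⟩ := h1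
  have hU2 : U ∩ {z | p2 z} ∈ 𝓝 v := Filter.inter_mem hU hp2
  obtain ⟨ν, h3, h4, h5, h6, h7, h8⟩ := ((hc.eventually hK).and ((hc.eventually hp1).and
    ((hc.eventually (pers hfin hv hU2)).and (hf.and (hJ.and hs))))).exists
  obtain ⟨z, ⟨hzU, hz2⟩, hzZ⟩ := h5 h6
  have h9 : ‖Jc m (c ν) z‖ < 1 / (|K| + 1) := h12 h4 hz2
  set S : Finset (Fin N → ℂ) := h6.toFinset.filter fun a => a ∈ U with hS
  have h10 := h3 h6 h7 S fun a => by
    rw [hS, Finset.mem_filter, h6.mem_toFinset]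
  have hzS : z ∈ S := by
    rw [hS, Finset.mem_filter, h6.mem_toFinset]
    exact ⟨hzZ, hzU⟩
  -- all the inverses are real of one sign
  have hSp : ∀ a ∈ S, a ∈ Zs m (c ν) ∧ a ∈ W := by
    intro a ha
    rw [hS, Finset.mem_filter, h6.mem_toFinset] at ha
    exact ⟨ha.1, hUW ha.2⟩
  have hre : ∀ a ∈ S, Jc m (c ν) a = (((Jc m (c ν) a).re : ℝ) : ℂ) := by
    intro a ha
    obtain ⟨h11, h12⟩ := hSp a ha
    have := (h8 a h11 h12 a h11 h12).1
    exact Complex.ext rfl (by simp [this])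
  have h11 : ‖∑ a ∈ S, (Jc m (c ν) a)⁻¹‖ = ∑ a ∈ S, ‖(Jc m (c ν) a)⁻¹‖ := by
    have h13 : ∑ a ∈ S, (Jc m (c ν) a)⁻¹ = ((∑ a ∈ S, ((Jc m (c ν) a).re)⁻¹ : ℝ) : ℂ) := by
      push_cast
      refine Finset.sum_congr rfl fun a ha => ?_
      conv_lhs => rw [hre a ha]
    have h14 : ∑ a ∈ S, ‖(Jc m (c ν) a)⁻¹‖ = ∑ a ∈ S, |((Jc m (c ν) a).re)⁻¹| := by
      refine Finset.sum_congr rfl fun a ha => ?_
      conv_lhs => rw [hre a ha]
      rw [norm_inv, Complex.norm_real, Real.norm_eq_abs, abs_inv]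
    rw [h13, h14, Complex.norm_real, Real.norm_eq_abs]
    have hz0 := hSp z hzS
    rcases lt_trichotomy (Jc m (c ν) z).re 0 with hneg | hzero | hpos
    · have h15 : ∀ a ∈ S, ((Jc m (c ν) a).re)⁻¹ ≤ 0 := by
        intro a ha
        obtain ⟨h16, h17⟩ := hSp a ha
        have := (h8 a h16 h17 z hz0.1 hz0.2).2
        exact inv_nonpos.2 (by nlinarith)
      rw [abs_of_nonpos (Finset.sum_nonpos h15), ← Finset.sum_neg_distrib]
      exact Finset.sum_congr rfl fun a ha => (abs_of_nonpos (h15 a ha)).symm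
    · have := (h8 z hz0.1 hz0.2 z hz0.1 hz0.2).2
      rw [hzero] at this
      simp at this
    · have h15 : ∀ a ∈ S, 0 ≤ ((Jc m (c ν) a).re)⁻¹ := by
        intro a ha
        obtain ⟨h16, h17⟩ := hSp a ha
        have := (h8 a h16 h17 z hz0.1 hz0.2).2
        exact inv_nonneg.2 (by nlinarith)
      rw [abs_of_nonneg (Finset.sum_nonneg h15)]
      exact Finset.sum_congr rfl fun a ha => (abs_of_nonneg (h15 a ha)).symm
  have h12 : ‖(Jc m (c ν) z)⁻¹‖ ≤ K := by
    refine le_trans ?_ h10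
    rw [h11]
    exact Finset.single_le_sum (f := fun a => ‖(Jc m (c ν) a)⁻¹‖) (fun _ _ => norm_nonneg _) hzS
  have h13 : 0 < ‖Jc m (c ν) z‖ := norm_pos_iff.2 (h7 z hzZ)
  rw [norm_inv] at h12
  have h14 : |K| + 1 < ‖Jc m (c ν) z‖⁻¹ := by
    rw [lt_inv_comm₀ (by positivity) h13, ← one_div]
    exact h9
  linarith [le_abs_self K]

end main

end Pool.GTR.Tr
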