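import Pool.Agent.GTR.Tr.Law

/-!
# GTR / Tr / Sys: systems of `N` polynomials with parameters

`sys m c i = ∑ t, C (c i t) * m t` (`m : τ → MvPolynomial (Fin N) ℂ` fixed, `c` the parameters), `Zs m c` = the zero set,
`Jc m c a` = Jacobian determinant at `a`, `Th m c a` = matrix with `sys m c - sys m c (a) = Th (z - a)`.
* `null`     : Nullstellensatz;
* `one_eq`   : `1 = ∑_a Δ_a / J(a)` modulo the system if all zeros are nondegenerate;
* `TI_ideal` : integrals vanish if an element of the ideal has no zero in the polydisc.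
-/

set_option autoImplicit false

open MeasureTheory Set Complex Filter Topology MvPolynomial Matrix

noncomputable section

namespace Pool.GTR.Tr

variable {N : ℕ}

/-- Nullstellensatz -/
theorem null {κ : Type*} [Fintype κ] {G : κ → MvPolynomial (Fin N) ℂ}
    {g : MvPolynomial (Fin N) ℂ} (h : ∀ z, (∀ i, eval z (G i) = 0) → eval z g = 0) :
    ∃ (q : ℕ) (e : κ → MvPolynomial (Fin N) ℂ), g ^ q = ∑ i, e i * G i := by
  have h1 : g ∈ vanishingIdeal ℂ (zeroLocus ℂ (Ideal.span (Set.range G))) := by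
    rw [mem_vanishingIdeal_iff]
    intro z hz
    rw [zeroLocus_span] at hz
    rw [MvPolynomial.aeval_eq_eval]
    refine h z fun i => ?_
    have := hz (G i) ⟨i, rfl⟩
    rwa [MvPolynomial.aeval_eq_eval] at this
  rw [vanishingIdeal_zeroLocus_eq_radical] at h1
  obtain ⟨q, hq⟩ := h1
  obtain ⟨e, he⟩ := (Ideal.mem_span_range_iff_exists_fun).1 hq
  exact ⟨q, e, he.symm⟩

/-- no common zero: `1` is in the ideal -/
theorem null_one {κ : Type*} [Fintype κ] {G : κ → MvPolynomial (Fin N) ℂ}
    (h : ∀ z, ∃ i, eval z (G i) ≠ 0) :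
    ∃ e : κ → MvPolynomial (Fin N) ℂ, 1 = ∑ i, e i * G i := by
  obtain ⟨q, e, he⟩ := null (g := 1) (G := G) fun z hz => by
    obtain ⟨i, hi⟩ := h z
    exact absurd (hz i) hi
  exact ⟨e, by rw [← he, one_pow]⟩

/-- division with remainder by the ideal of a point -/
theorem had_ex (p : MvPolynomial (Fin N) ℂ) (a : Fin N → ℂ) :
    ∃ θ : Fin N → MvPolynomial (Fin N) ℂ, p = C (eval a p) + ∑ j, θ j * wv a j := by
  induction p using MvPolynomial.induction_on with
  | C x => exact ⟨0, by simp⟩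
  | add p q hp hq =>
    obtain ⟨θ, h1⟩ := hp
    obtain ⟨η, h2⟩ := hq
    refine ⟨θ + η, ?_⟩
    conv_lhs => rw [h1, h2]
    simp only [map_add, Pi.add_apply, add_mul, Finset.sum_add_distrib]
    ring
  | mul_X p i hp =>
    obtain ⟨θ, h1⟩ := hp
    refine ⟨fun j => θ j * X i + if j = i then C (eval a p) else 0, ?_⟩
    have h2 : ∑ j, (θ j * X i + if j = i then C (eval a p) else 0) * wv a j =
        (∑ j, θ j * wv a j) * X i + C (eval a p) * wv a i := by
      simp only [add_mul, Finset.sum_add_distrib, Finset.sum_mul, ite_mul, zero_mul,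
        Finset.sum_ite_eq', Finset.mem_univ, if_true]
      congr 1
      refine Finset.sum_congr rfl fun j _ => ?_
      ring
    rw [h2]
    conv_lhs => rw [h1]
    simp only [map_mul, eval_X, wv]
    ring

/-- the quotients -/
def had (p : MvPolynomial (Fin N) ℂ) (a : Fin N → ℂ) : Fin N → MvPolynomial (Fin N) ℂ :=
  (had_ex p a).choose

theorem had_spec (p : MvPolynomial (Fin N) ℂ) (a : Fin N → ℂ) :
    p = C (eval a p) + ∑ j, had p a j * wv a j := (had_ex p a).choose_spec

/-- the quotient at the point is the derivative -/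
theorem eval_quot {p : MvPolynomial (Fin N) ℂ} {a : Fin N → ℂ} {x : ℂ}
    {θ : Fin N → MvPolynomial (Fin N) ℂ} (h : p = C x + ∑ j, θ j * wv a j) (j : Fin N) :
    eval a (pderiv j p) = eval a (θ j) := by
  rw [h]
  simp only [map_add, pderiv_C, map_sum, zero_add, Derivation.leibniz, smul_eq_mul, wv, map_sub,
    pderiv_X, sub_zero, map_mul, eval_X, eval_C, sub_self, zero_mul, add_zero]
  rw [Finset.sum_eq_single j]
  · simp
  · intro i _ hi
    rw [Pi.single_eq_of_ne hi, map_zero, mul_zero]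
  · intro hj
    exact absurd (Finset.mem_univ j) hj

section sys

variable {τ : Type*} [Fintype τ] (m : τ → MvPolynomial (Fin N) ℂ)

/-- the system with parameters `c` -/
def sys (c : Fin N → τ → ℂ) (i : Fin N) : MvPolynomial (Fin N) ℂ := ∑ t, C (c i t) * m t

/-- the zero set -/
def Zs (c : Fin N → τ → ℂ) : Set (Fin N → ℂ) := {z | ∀ i, eval z (sys m c i) = 0}

/-- the Jacobian determinant -/
def Jc (c : Fin N → τ → ℂ) (a : Fin N → ℂ) : ℂ :=
  Matrix.det fun i j => eval a (pderiv j (sys m c i))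

/-- `sys m c - sys m c (a) = Th (z - a)` -/
def Th (c : Fin N → τ → ℂ) (a : Fin N → ℂ) :
    Matrix (Fin N) (Fin N) (MvPolynomial (Fin N) ℂ) :=
  fun i j => ∑ t, C (c i t) * had (m t) a j

variable {m}

theorem eval_sys (c : Fin N → τ → ℂ) (i : Fin N) (z : Fin N → ℂ) :
    eval z (sys m c i) = ∑ t, c i t * eval z (m t) := by
  unfold sys
  simp

theorem sys_eq (c : Fin N → τ → ℂ) (a : Fin N → ℂ) (i : Fin N) :
    sys m c i = C (eval a (sys m c i)) + ∑ j, Th m c a i j * wv a j := by
  have h1 : ∑ j, Th m c a i j * wv a j = ∑ t, C (c i t) * ∑ j, had (m t) a j * wv a j := by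
    unfold Th
    simp only [Finset.sum_mul, Finset.mul_sum]
    rw [Finset.sum_comm]
    refine Finset.sum_congr rfl fun t _ => Finset.sum_congr rfl fun j _ => ?_
    ring
  rw [h1, eval_sys, map_sum, ← Finset.sum_add_distrib]
  unfold sys
  refine Finset.sum_congr rfl fun t _ => ?_
  conv_lhs => rw [had_spec (m t) a]
  rw [map_mul]
  ring

theorem sys_zero {c : Fin N → τ → ℂ} {a : Fin N → ℂ} (ha : a ∈ Zs m c) (i : Fin N) :
    sys m c i = ∑ j, Th m c a i j * wv a j := by
  have h := sys_eq (m := m) c a i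
  rw [ha i, map_zero, zero_add] at h
  exact h

theorem eval_Th_det (c : Fin N → τ → ℂ) (a : Fin N → ℂ) :
    eval a (Th m c a).det = Jc m c a := by
  unfold Jc
  rw [RingHom.map_det]
  congr 1
  funext i j
  rw [eval_quot (sys_eq c a i) j]
  rfl

theorem eval_Th_ne {c : Fin N → τ → ℂ} {a b : Fin N → ℂ} (ha : a ∈ Zs m c) (hb : b ∈ Zs m c)
    (hab : a ≠ b) : eval b (Th m c a).det = 0 := by
  obtain ⟨l, hl⟩ := Function.ne_iff.1 hab
  have h1 := congrArg (eval b) (cramer (sys_zero ha) l)
  rw [map_mul, map_sum, eval_wv] at h1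
  have h2 : ∑ x, eval b ((Th m c a).adjugate l x * sys m c x) = 0 :=
    Finset.sum_eq_zero fun x _ => by rw [map_mul, hb x, mul_zero]
  rw [h2] at h1
  rcases mul_eq_zero.1 h1 with h3 | h3
  · exact h3
  · exact absurd (sub_eq_zero.1 h3).symm hl

/-- `1 = ∑_a Δ_a / J(a)` modulo the system -/
theorem one_eq {c : Fin N → τ → ℂ} (hf : (Zs m c).Finite) (hJ : ∀ a ∈ Zs m c, Jc m c a ≠ 0) :
    ∃ e : Fin N → MvPolynomial (Fin N) ℂ,
      1 = ∑ a ∈ hf.toFinset, C (Jc m c a)⁻¹ * (Th m c a).det + ∑ i, e i * sys m c i := by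
  classical
  obtain ⟨e, he⟩ := null_one (κ := Fin N ⊕ hf.toFinset)
    (G := Sum.elim (sys m c) fun a => (Th m c a.1).det) fun z => by
      by_cases hz : z ∈ Zs m c
      · refine ⟨Sum.inr ⟨z, hf.mem_toFinset.2 hz⟩, ?_⟩
        simp only [Sum.elim_inr]
        rw [eval_Th_det]
        exact hJ z hz
      · unfold Zs at hz
        simp only [Set.mem_ofPred_eq, not_forall] at hz
        obtain ⟨i, hi⟩ := hz
        exact ⟨Sum.inl i, hi⟩
  rw [Fintype.sum_sum_type] at he
  simp only [Sum.elim_inl, Sum.elim_inr] at he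
  -- replace the coefficients by their values
  have h1 : ∀ a : hf.toFinset, ∃ d : Fin N → MvPolynomial (Fin N) ℂ,
      e (Sum.inr a) * (Th m c a.1).det =
        C (eval a.1 (e (Sum.inr a))) * (Th m c a.1).det + ∑ i, d i * sys m c i := by
    intro a
    have ha : a.1 ∈ Zs m c := hf.mem_toFinset.1 a.2
    refine ⟨fun i => ∑ l, had (e (Sum.inr a)) a.1 l * (Th m c a.1).adjugate l i, ?_⟩
    conv_lhs => rw [had_spec (e (Sum.inr a)) a.1]
    rw [add_mul, Finset.sum_mul]
    congr 1
    have h2 : ∀ l, had (e (Sum.inr a)) a.1 l * wv a.1 l * (Th m c a.1).det =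
        ∑ i, had (e (Sum.inr a)) a.1 l * (Th m c a.1).adjugate l i * sys m c i := by
      intro l
      rw [mul_assoc, mul_comm (wv a.1 l), cramer (sys_zero ha) l, Finset.mul_sum]
      exact Finset.sum_congr rfl fun i _ => by ring
    rw [Finset.sum_congr rfl fun l _ => h2 l, Finset.sum_comm]
    exact Finset.sum_congr rfl fun i _ => by rw [Finset.sum_mul]
  choose d hd using h1
  rw [Finset.sum_congr rfl fun a _ => hd a, Finset.sum_add_distrib] at he
  have h2 : ∀ a : hf.toFinset, eval a.1 (e (Sum.inr a)) = (Jc m c a.1)⁻¹ := by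
    intro a
    have ha : a.1 ∈ Zs m c := hf.mem_toFinset.1 a.2
    have h3 := congrArg (eval a.1) he
    rw [map_one, map_add, map_add, map_sum, map_sum, map_sum] at h3
    have h4 : ∑ x, eval a.1 (e (Sum.inl x) * sys m c x) = 0 :=
      Finset.sum_eq_zero fun x _ => by rw [map_mul, ha x, mul_zero]
    have h5 : ∑ x, eval a.1 (∑ i, d x i * sys m c i) = 0 :=
      Finset.sum_eq_zero fun x _ => by
        rw [map_sum]
        exact Finset.sum_eq_zero fun i _ => by rw [map_mul, ha i, mul_zero]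
    have h6 : ∑ x, eval a.1 (C (eval x.1 (e (Sum.inr x))) * (Th m c x.1).det) =
        eval a.1 (e (Sum.inr a)) * Jc m c a.1 := by
      rw [Finset.sum_eq_single a]
      · rw [map_mul, eval_C, eval_Th_det]
      · intro b _ hb
        rw [map_mul, eval_Th_ne (hf.mem_toFinset.1 b.2) ha fun h => hb (Subtype.ext h), mul_zero]
      · intro h
        exact absurd (Finset.mem_univ a) h
    rw [h4, h5, h6, zero_add, add_zero] at h3
    exact eq_inv_of_mul_eq_one_left h3.symm
  refine ⟨fun i => e (Sum.inl i) + ∑ x, d x i, ?_⟩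
  conv_lhs => rw [he]
  have h7 : ∑ x : hf.toFinset, C (eval x.1 (e (Sum.inr x))) * (Th m c x.1).det =
      ∑ a ∈ hf.toFinset, C (Jc m c a)⁻¹ * (Th m c a).det := by
    rw [← Finset.sum_coe_sort hf.toFinset]
    exact Finset.sum_congr rfl fun x _ => by rw [h2 x]
  have h8 : ∑ x : hf.toFinset, ∑ i, d x i * sys m c i = ∑ i, (∑ x, d x i) * sys m c i := by
    rw [Finset.sum_comm]
    exact Finset.sum_congr rfl fun i _ => by rw [Finset.sum_mul]
  rw [h7, h8]
  simp only [add_mul, Finset.sum_add_distrib]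
  ring

end sys

/-- an element of the ideal without zeros in the polydisc -/
theorem TI_ideal {v : Fin N → ℂ} {r : ℝ} (hr : 0 ≤ r) {F G : Fin N → MvPolynomial (Fin N) ℂ}
    {b : Matrix (Fin N) (Fin N) (MvPolynomial (Fin N) ℂ)}
    (hG : ∀ i, G i = ∑ j, b i j * F j) (hN : NZ v r G) {g : MvPolynomial (Fin N) ℂ}
    (hg : ∀ z ∈ pd v r, eval z g ≠ 0) {e : Fin N → MvPolynomial (Fin N) ℂ}
    (hge : g = ∑ j, e j * F j) (H : MvPolynomial (Fin N) ℂ) :
    TI v r (b.det * H) (∏ j, G j) = 0 := by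
  have h1 : TI v r (b.det * H) (∏ j, G j) = TI v r (b.det * H * g) ((∏ j, G j) * g) :=
    (TI_cancel hr _ _ fun z hz => hg z (tor_sub_pd v r hz)).symm
  have h2 : ∀ j, b.det * F j = ∑ i, b.adjugate j i * G i := by
    intro j
    have h3 : G = b.mulVec F := by
      funext i
      rw [hG i]
      rfl
    have h4 : b.adjugate.mulVec G = b.det • F := by
      rw [h3, Matrix.mulVec_mulVec, Matrix.adjugate_mul, Matrix.smul_mulVec, Matrix.one_mulVec]
    have h5 := congrFun h4 j
    rw [Pi.smul_apply, smul_eq_mul] at h5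
    rw [← h5]
    rfl
  have h3 : b.det * H * g = ∑ i, (H * ∑ j, e j * b.adjugate j i) * G i := by
    have h4 : b.det * H * g = H * ∑ j, e j * (b.det * F j) := by
      rw [hge]
      simp only [Finset.mul_sum]
      exact Finset.sum_congr rfl fun j _ => by ring
    rw [h4]
    simp only [h2, Finset.mul_sum, Finset.sum_mul]
    rw [Finset.sum_comm]
    exact Finset.sum_congr rfl fun i _ => Finset.sum_congr rfl fun j _ => by ring
  have hq : ∀ z ∈ tor v r, eval z ((∏ j, G j) * g) ≠ 0 := by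
    intro z hz
    rw [map_mul]
    exact mul_ne_zero (nz_prod hN _ z hz) (hg z (tor_sub_pd v r hz))
  rw [h1, h3, TI_sum hr _ _ hq]
  refine Finset.sum_eq_zero fun l _ => ?_
  rw [mul_comm (∏ j, G j)]
  exact TI_elim hr hN l _ fun z hz => hg z (tori_sub_pd v r l hz)

end Pool.GTR.Tr
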