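import Mathlib

/-!
# GTR / Tr / Torus: torus integrals of quotients of polynomials

`TI v r p q` = integral of `p / q` over the torus `|z_i - v_i| = r`.
* `TI_zero` : it vanishes if `q` has no zero with `|z_i - v_i| ≤ r`, `|z_j - v_j| = r` (`j ≠ i`);
* `TI_one`  : the integral of `1 / ∏ (z_i - a_i)` is `(2 π i) ^ N` if `|a_i - v_i| < r`.
-/

set_option autoImplicit false

open MeasureTheory Set Complex Filter Topology MvPolynomial

noncomputable section

namespace Pool.GTR.Tr

/-- the torus integral with the inner integral over the circle of the variable `i` -/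
theorem torusIntegral_succAbove' {n : ℕ} {f : (Fin (n + 1) → ℂ) → ℂ} {c : Fin (n + 1) → ℂ}
    {R : Fin (n + 1) → ℝ} (hf : TorusIntegrable f c R) (i : Fin (n + 1)) :
    (∯ x in T(c, R), f x) =
      ∯ y in T(c ∘ i.succAbove, R ∘ i.succAbove), ∮ x in C(c i, R i), f (i.insertNth x y) := by
  set e : ℝ × (Fin n → ℝ) ≃ᵐ (Fin (n + 1) → ℝ) :=
    (MeasurableEquiv.piFinSuccAbove (fun _ => ℝ) i).symm
  have hem : MeasurePreserving e :=
    (volume_preserving_piFinSuccAbove (fun _ : Fin (n + 1) => ℝ) i).symm _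
  have heπ : (e ⁻¹' Icc 0 fun _ => 2 * Real.pi) =
      Icc 0 (2 * Real.pi) ×ˢ Icc (0 : Fin n → ℝ) fun _ => 2 * Real.pi :=
    ((Fin.insertNthOrderIso (fun _ => ℝ) i).preimage_Icc _ _).trans (Icc_prod_eq _ _)
  have hint := hf.function_integrable
  rw [← hem.integrableOn_comp_preimage e.measurableEmbedding, heπ, Measure.volume_eq_prod] at hint
  rw [torusIntegral, ← hem.map_eq, setIntegral_map_equiv, heπ, Measure.volume_eq_prod,
    ← setIntegral_prod_swap, setIntegral_prod]
  · refine setIntegral_congr_fun measurableSet_Icc fun Θ _ => ?_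
    simp only []
    rw [circleIntegral_def_Icc, ← integral_smul]
    refine setIntegral_congr_fun measurableSet_Icc fun θ _ => ?_
    simp +unfoldPartialApp only [e, deriv_circleMap, i.prod_univ_succAbove _, smul_smul,
      torusMap, circleMap_zero, Prod.swap_prod_mk,
      MeasurableEquiv.piFinSuccAbove_symm_apply, i.insertNth_apply_same,
      i.insertNth_apply_succAbove, (· ∘ ·), Fin.insertNthEquiv, Equiv.coe_fn_mk]
    congr 1
    · ring
    · congr 1
      simp only [funext_iff, i.forall_iff_succAbove, circleMap, Fin.insertNth_apply_same,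
        Fin.insertNth_apply_succAbove, imp_true_iff, and_self_iff]
  · exact hint.swap

variable {N : ℕ}

/-- the polynomial function is holomorphic -/
theorem differentiable_eval (p : MvPolynomial (Fin N) ℂ) :
    Differentiable ℂ fun z : Fin N → ℂ => eval z p := by
  induction p using MvPolynomial.induction_on with
  | C a => simp
  | add p q hp hq =>
    simp only [map_add]
    exact hp.add hq
  | mul_X p i hp =>
    simp only [map_mul, eval_X]
    exact hp.mul (differentiable_apply i)

theorem continuous_eval (p : MvPolynomial (Fin N) ℂ) :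
    Continuous fun z : Fin N → ℂ => eval z p := (differentiable_eval p).continuous

theorem differentiable_update (z : Fin N → ℂ) (i : Fin N) :
    Differentiable ℂ fun x : ℂ => Function.update z i x := by
  rw [differentiable_pi]
  intro j
  by_cases h : j = i
  · subst h
    simp
  · simp [Function.update_of_ne h]

/-- the torus -/
def tor (v : Fin N → ℂ) (r : ℝ) : Set (Fin N → ℂ) := {z | ∀ i, ‖z i - v i‖ = r}

/-- the torus with the disc in the variable `i` -/
def tori (v : Fin N → ℂ) (r : ℝ) (i : Fin N) : Set (Fin N → ℂ) :=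
  {z | (∀ j, j ≠ i → ‖z j - v j‖ = r) ∧ ‖z i - v i‖ ≤ r}

/-- the closed polydisc -/
def pd (v : Fin N → ℂ) (r : ℝ) : Set (Fin N → ℂ) := {z | ∀ i, ‖z i - v i‖ ≤ r}

theorem tor_sub_tori (v : Fin N → ℂ) (r : ℝ) (i : Fin N) : tor v r ⊆ tori v r i :=
  fun _ hz => ⟨fun j _ => hz j, (hz i).le⟩

theorem tori_sub_pd (v : Fin N → ℂ) (r : ℝ) (i : Fin N) : tori v r i ⊆ pd v r := by
  intro z hz j
  by_cases h : j = i
  · subst h
    exact hz.2
  · exact (hz.1 j h).le

theorem tor_sub_pd (v : Fin N → ℂ) (r : ℝ) : tor v r ⊆ pd v r := fun _ hz i => (hz i).le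

theorem torusMap_mem {v : Fin N → ℂ} {r : ℝ} (hr : 0 ≤ r) (θ : Fin N → ℝ) :
    torusMap v (fun _ => r) θ ∈ tor v r := by
  intro i
  simp only [torusMap, add_sub_cancel_left, norm_mul, Complex.norm_real, Real.norm_eq_abs,
    abs_of_nonneg hr, Complex.norm_exp_ofReal_mul_I, mul_one]

/-- integral of `p / q` over the torus -/
def TI (v : Fin N → ℂ) (r : ℝ) (p q : MvPolynomial (Fin N) ℂ) : ℂ :=
  ∯ z in T(v, fun _ => r), eval z p / eval z q

theorem continuous_torusMap (v : Fin N → ℂ) (R : Fin N → ℝ) : Continuous (torusMap v R) := by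
  unfold torusMap
  fun_prop

theorem integrable_div {v : Fin N → ℂ} {r : ℝ} (hr : 0 ≤ r) (p : MvPolynomial (Fin N) ℂ)
    {q : MvPolynomial (Fin N) ℂ} (hq : ∀ z ∈ tor v r, eval z q ≠ 0) :
    TorusIntegrable (fun z => eval z p / eval z q) v fun _ => r := by
  have h : Continuous fun θ : Fin N → ℝ => eval (torusMap v (fun _ => r) θ) p /
      eval (torusMap v (fun _ => r) θ) q :=
    ((continuous_eval p).comp (continuous_torusMap _ _)).div
      ((continuous_eval q).comp (continuous_torusMap _ _))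
      fun θ => hq _ (torusMap_mem hr θ)
  exact h.continuousOn.integrableOn_compact isCompact_Icc

theorem torus_congr {v : Fin N → ℂ} {r : ℝ} (hr : 0 ≤ r) {f g : (Fin N → ℂ) → ℂ}
    (h : ∀ z ∈ tor v r, f z = g z) :
    (∯ z in T(v, fun _ => r), f z) = ∯ z in T(v, fun _ => r), g z := by
  unfold torusIntegral
  refine setIntegral_congr_fun measurableSet_Icc fun θ _ => ?_
  simp only []
  rw [h _ (torusMap_mem hr θ)]

theorem TI_congr {v : Fin N → ℂ} {r : ℝ} (hr : 0 ≤ r) {p q p' q' : MvPolynomial (Fin N) ℂ}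
    (h : ∀ z ∈ tor v r, eval z p / eval z q = eval z p' / eval z q') :
    TI v r p q = TI v r p' q' := torus_congr hr h

theorem TI_cancel {v : Fin N → ℂ} {r : ℝ} (hr : 0 ≤ r) (p q : MvPolynomial (Fin N) ℂ)
    {g : MvPolynomial (Fin N) ℂ} (hg : ∀ z ∈ tor v r, eval z g ≠ 0) :
    TI v r (p * g) (q * g) = TI v r p q := by
  refine TI_congr hr fun z hz => ?_
  rw [map_mul, map_mul, mul_div_mul_right _ _ (hg z hz)]

theorem TI_add {v : Fin N → ℂ} {r : ℝ} (hr : 0 ≤ r) (p p' : MvPolynomial (Fin N) ℂ)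
    {q : MvPolynomial (Fin N) ℂ} (hq : ∀ z ∈ tor v r, eval z q ≠ 0) :
    TI v r (p + p') q = TI v r p q + TI v r p' q := by
  unfold TI
  rw [← torusIntegral_add (integrable_div hr p hq) (integrable_div hr p' hq)]
  refine torus_congr hr fun z _ => ?_
  rw [map_add, add_div]

theorem TI_zero_left (v : Fin N → ℂ) (r : ℝ) (q : MvPolynomial (Fin N) ℂ) :
    TI v r 0 q = 0 := by
  unfold TI torusIntegral
  simp

theorem TI_sum {v : Fin N → ℂ} {r : ℝ} (hr : 0 ≤ r) {ι : Type*} (s : Finset ι)
    (p : ι → MvPolynomial (Fin N) ℂ) {q : MvPolynomial (Fin N) ℂ}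
    (hq : ∀ z ∈ tor v r, eval z q ≠ 0) :
    TI v r (∑ i ∈ s, p i) q = ∑ i ∈ s, TI v r (p i) q := by
  classical
  induction s using Finset.induction_on with
  | empty => simp [TI_zero_left]
  | insert a s ha ih => rw [Finset.sum_insert ha, Finset.sum_insert ha, TI_add hr _ _ hq, ih]

theorem TI_C_mul {v : Fin N → ℂ} {r : ℝ} (hr : 0 ≤ r) (a : ℂ) (p q : MvPolynomial (Fin N) ℂ) :
    TI v r (C a * p) q = a * TI v r p q := by
  unfold TI
  rw [← torusIntegral_const_mul]
  refine torus_congr hr fun z _ => ?_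
  rw [map_mul, eval_C, mul_div_assoc]

/-- CAUCHY in one variable -/
theorem TI_zero {v : Fin N → ℂ} {r : ℝ} (hr : 0 ≤ r) (i : Fin N)
    (p : MvPolynomial (Fin N) ℂ) {q : MvPolynomial (Fin N) ℂ}
    (hq : ∀ z ∈ tori v r i, eval z q ≠ 0) : TI v r p q = 0 := by
  obtain ⟨n, rfl⟩ : ∃ n, N = n + 1 := ⟨N - 1, by have := i.2; omega⟩
  unfold TI
  rw [torusIntegral_succAbove' (integrable_div hr p fun z hz => hq z (tor_sub_tori v r i hz)) i]
  have h0 : ∀ y ∈ tor (v ∘ i.succAbove) r, (∮ x in C(v i, r),
      eval (i.insertNth x y) p / eval (i.insertNth x y) q) = 0 := by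
    intro y hy
    have hu : ∀ x : ℂ, (i.insertNth x y : Fin (n + 1) → ℂ) =
        Function.update (i.insertNth (0 : ℂ) y : Fin (n + 1) → ℂ) i x := by
      intro x
      funext j
      rcases eq_or_ne j i with rfl | hj
      · simp
      · obtain ⟨k, rfl⟩ := Fin.exists_succAbove_eq hj
        simp
    have hmem : ∀ x : ℂ, ‖x - v i‖ ≤ r →
        (i.insertNth x y : Fin (n + 1) → ℂ) ∈ tori v r i := by
      intro x hx
      refine ⟨fun j hj => ?_, ?_⟩
      · obtain ⟨k, rfl⟩ := Fin.exists_succAbove_eq hj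
        rw [Fin.insertNth_apply_succAbove]
        exact hy k
      · rw [Fin.insertNth_apply_same]
        exact hx
    have hd : ∀ p : MvPolynomial (Fin (n + 1)) ℂ,
        Differentiable ℂ fun x : ℂ => eval (i.insertNth x y : Fin (n + 1) → ℂ) p := by
      intro p
      have h := (differentiable_eval p).comp (differentiable_update
        (i.insertNth (0 : ℂ) y : Fin (n + 1) → ℂ) i)
      have e : (fun x : ℂ => eval (i.insertNth x y : Fin (n + 1) → ℂ) p) =
          (fun z : Fin (n + 1) → ℂ => eval z p) ∘ fun x : ℂ =>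
            Function.update (i.insertNth (0 : ℂ) y : Fin (n + 1) → ℂ) i x := by
        funext x
        rw [hu x]
        rfl
      rw [e]
      exact h
    refine Complex.circleIntegral_eq_zero_of_differentiable_on_off_countable hr
      Set.countable_empty ?_ ?_
    · refine ContinuousOn.div (hd p).continuous.continuousOn (hd q).continuous.continuousOn
        fun x hx => hq _ (hmem x ?_)
      rw [← dist_eq_norm]
      exact hx
    · intro x hx
      refine DifferentiableAt.div (hd p x) (hd q x) (hq _ (hmem x ?_))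
      rw [← dist_eq_norm]
      exact (Metric.mem_ball.1 hx.1).le
  have h1 : (∯ y in T(v ∘ i.succAbove, fun _ => r), ∮ x in C(v i, r),
      eval (i.insertNth x y) p / eval (i.insertNth x y) q) =
      ∯ y in T(v ∘ i.succAbove, fun _ => r), (0 : ℂ) := torus_congr hr h0
  refine h1.trans ?_
  unfold torusIntegral
  simp

theorem torus_prod_inv (N : ℕ) {v a : Fin N → ℂ} {r : ℝ} (hr : 0 ≤ r)
    (ha : ∀ i, ‖a i - v i‖ < r) :
    (∯ z in T(v, fun _ => r), ∏ i, (z i - a i)⁻¹) = (2 * Real.pi * Complex.I) ^ N := by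
  induction N with
  | zero => simp
  | succ N ih =>
    have hint : TorusIntegrable (fun z : Fin (N + 1) → ℂ => ∏ i, (z i - a i)⁻¹) v
        fun _ => r := by
      have h : Continuous fun θ : Fin (N + 1) → ℝ =>
          ∏ i, (torusMap v (fun _ => r) θ i - a i)⁻¹ := by
        refine continuous_finsetProd _ fun i _ => Continuous.inv₀ ?_ fun θ h0 => ?_
        · have h5 := continuous_pi_iff.1 (continuous_torusMap v fun _ => r) i
          fun_prop
        · have h1 : ‖torusMap v (fun _ => r) θ i - v i‖ = r := torusMap_mem hr θ i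
          have h2 := ha i
          rw [sub_eq_zero.1 h0] at h1
          linarith
      exact h.continuousOn.integrableOn_compact isCompact_Icc
    rw [torusIntegral_succ hint]
    have h1 : ∀ x : ℂ, (∯ y in T(v ∘ Fin.succ, (fun _ => r) ∘ Fin.succ),
        ∏ i, ((Fin.cons x y : Fin (N + 1) → ℂ) i - a i)⁻¹) =
        (2 * Real.pi * Complex.I) ^ N * (x - a 0)⁻¹ := by
      intro x
      have h2 : ∀ y : Fin N → ℂ, ∏ i, ((Fin.cons x y : Fin (N + 1) → ℂ) i - a i)⁻¹ =
          (x - a 0)⁻¹ * ∏ i, (y i - (a ∘ Fin.succ) i)⁻¹ := by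
        intro y
        rw [Fin.prod_univ_succ]
        rfl
      simp only [h2]
      rw [torusIntegral_const_mul]
      have h3 := ih (v := v ∘ Fin.succ) (a := a ∘ Fin.succ) fun i => ha i.succ
      have h4 : ((fun _ => r) ∘ Fin.succ : Fin N → ℝ) = fun _ => r := rfl
      rw [h4, h3, mul_comm]
    simp only [h1]
    rw [circleIntegral.integral_const_mul, circleIntegral.integral_sub_inv_of_mem_ball, pow_succ]
    rw [Metric.mem_ball, dist_eq_norm]
    exact ha 0

theorem TI_one {v a : Fin N → ℂ} {r : ℝ} (hr : 0 ≤ r) (ha : ∀ i, ‖a i - v i‖ < r) :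
    TI v r 1 (∏ i, (X i - C (a i))) = (2 * Real.pi * Complex.I) ^ N := by
  rw [← torus_prod_inv N hr ha]
  refine torus_congr hr fun z _ => ?_
  rw [map_one, map_prod, one_div, Finset.prod_inv_distrib]
  simp

end Pool.GTR.Tr
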